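import Pool.Agent.V11185.RegMax

/-!
# MP_4eafcb_co: a homology class that does not come from wheels

The connected simple regular matroids with 15 elements and rank 6 carry a cycle, a combination of
the duals of the cycle matroids of five cubic graphs with 10 vertices, that is not a boundary.
-/

set_option autoImplicit false

namespace Pool.Agent.Results.MP_4eafcb_co.NonWheelClass

open Set Submodule Module Pool.Agent.Helper236 Pool.Agent.V11185.RegLin Pool.Agent.V11185.RegData
  Pool.Agent.V11185.RegUnique Pool.Agent.V11185.RegComplex Pool.Agent.V11185.RegMax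

/-! ### Signs -/

theorem sign_eq {n : ℕ} (σ : Equiv.Perm (Fin n)) (f : ℕ → ℕ)
    (hf : ∀ i : Fin n, f i = (σ i : ℕ)) : ((Equiv.Perm.sign σ : ℤˣ) : ℤ) = signOf n f := by
  rw [Equiv.Perm.sign_eq_prod_prod_Iio, Units.coe_prod]
  have h1 : signOf n f = ∏ j ∈ Finset.range n, ∏ i ∈ Finset.range j,
      (if f i < f j then (1 : ℤ) else -1) := rfl
  rw [h1, Finset.prod_range]
  refine Finset.prod_congr rfl fun j _ => ?_
  rw [Units.coe_prod]
  refine Finset.prod_bij (fun (i : Fin n) _ => (i : ℕ)) ?_ ?_ ?_ ?_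
  · intro i hi
    rw [Finset.mem_range]
    exact Fin.lt_def.1 (Finset.mem_Iio.1 hi)
  · intro i _ j _ hij
    exact Fin.ext hij
  · intro i hi
    rw [Finset.mem_range] at hi
    exact ⟨⟨i, hi.trans j.2⟩, Finset.mem_Iio.2 hi, rfl⟩
  · intro i _
    rw [hf, hf]
    by_cases h : σ i < σ j
    · rw [if_pos h, if_pos (Fin.lt_def.1 h)]
      rfl
    · rw [if_neg h, if_neg (fun h2 => h (Fin.lt_def.2 h2))]
      rfl

/-! ### Automorphisms of the first matroid are even -/

/-- the values of a permutation -/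
def vals (σ : Equiv.Perm (Fin 15)) (i : ℕ) : ℕ := (σ (Fin.ofNat 15 i) : ℕ)

theorem vals_fin (σ : Equiv.Perm (Fin 15)) (i : Fin 15) : vals σ i = (σ i : ℕ) := by
  rw [vals]
  congr 2
  exact Fin.ext (Nat.mod_eq_of_lt i.2)

theorem search_mem (σ : Equiv.Perm (Fin 15))
    (hσ : ∀ a b : Fin 15, adjB a b = adjB (σ a : ℕ) (σ b : ℕ)) (is : List ℕ) :
    (∀ i ∈ is, i < 15) → is.Nodup →
    (is.reverse.map fun i => (i, vals σ i)) ∈ is.foldl stepExt [[]] := by
  induction is using List.reverseRecOn with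
  | nil =>
    intro _ _
    simp
  | append_singleton is i ih =>
    intro hlt hnd
    rw [List.foldl_append, List.foldl_cons, List.foldl_nil, List.reverse_append,
      List.reverse_singleton, List.singleton_append, List.map_cons, stepExt, List.mem_flatMap]
    have hnd' := List.nodup_append.1 hnd
    have hi : i < 15 := hlt i (by simp)
    refine ⟨_, ih (fun j hj => hlt j (by simp [hj])) hnd'.1, ?_⟩
    rw [List.mem_map]
    refine ⟨vals σ i, ?_, rfl⟩
    rw [List.mem_filter, List.mem_range]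
    refine ⟨(σ _).2, ?_⟩
    rw [okExt, List.all_eq_true]
    intro p hp
    rw [List.mem_map] at hp
    obtain ⟨j, hj, rfl⟩ := hp
    rw [List.mem_reverse] at hj
    have hjlt : j < 15 := hlt j (by simp [hj])
    have hji : j ≠ i := by
      rintro rfl
      exact hnd'.2.2 j hj j (by simp) rfl
    have hvj : vals σ j = (σ ⟨j, hjlt⟩ : ℕ) := vals_fin σ ⟨j, hjlt⟩
    have hvi : vals σ i = (σ ⟨i, hi⟩ : ℕ) := vals_fin σ ⟨i, hi⟩
    rw [Bool.and_eq_true, bne_iff_ne, beq_iff_eq]
    refine ⟨?_, ?_⟩
    · change vals σ j ≠ vals σ i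
      rw [hvj, hvi]
      intro h
      have h1 := σ.injective (Fin.ext h)
      exact hji (congrArg Fin.val h1)
    · change adjB j i = adjB (vals σ j) (vals σ i)
      rw [hvj, hvi]
      exact hσ ⟨j, hjlt⟩ ⟨i, hi⟩

theorem lookup_map (f : ℕ → ℕ) (is : List ℕ) (i : ℕ) (hi : i ∈ is) :
    lookup (is.map fun i => (i, f i)) i = f i := by
  induction is with
  | nil => simp at hi
  | cons j is ih =>
    rw [List.map_cons, lookup]
    by_cases h : j = i
    · rw [if_pos h, h]
    · rw [if_neg h]
      apply ih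
      rw [List.mem_cons] at hi
      exact hi.resolve_left fun h2 => h h2.symm

theorem even_aut (σ : Equiv.Perm (Fin 15))
    (h : ∀ I : Set (Fin 15), LinearIndepOn (ZMod 2) (vcol 0) I ↔
      LinearIndepOn (ZMod 2) (vcol 0) (σ '' I)) : ((Equiv.Perm.sign σ : ℤˣ) : ℤ) = 1 := by
  have h1 : ∀ a b : Fin 15, adjB a b = adjB (σ a : ℕ) (σ b : ℕ) := by
    intro a b
    rw [← fact_adj, ← fact_adj]
    exact adjc_congr σ h a b
  have h2 := search_mem σ h1 ordT (by decide) (by decide)
  have h3 := fact_aut _ h2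
  rw [sign_eq σ (lookup (ordT.reverse.map fun i => (i, vals σ i))), h3]
  intro i
  rw [lookup_map, vals_fin]
  have h4 : ∀ i : Fin 15, (i : ℕ) ∈ ordT.reverse := by decide
  exact h4 i

/-! ### The functional -/

theorem isoVia_iff (σ : Equiv.Perm (Fin 15)) (s : Symb 15) (k : Fin 5) :
    IsoVia σ s (S k) ↔ ∀ I : Set (Fin 15), s.M.Indep (s.l '' I) ↔
      LinearIndepOn (ZMod 2) (vcol k) (σ '' I) := by
  rw [IsoVia]
  refine forall_congr' fun I => ?_
  rw [S_indep]

theorem sign_unique {σ τ : Equiv.Perm (Fin 15)} {s : Symb 15} (h1 : IsoVia σ s (S 0))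
    (h2 : IsoVia τ s (S 0)) : ((Equiv.Perm.sign σ : ℤˣ) : ℤ) = ((Equiv.Perm.sign τ : ℤˣ) : ℤ) := by
  rw [isoVia_iff] at h1 h2
  have h3 := even_aut (σ.symm.trans τ) (by
    intro I
    have h4 := h1 (σ.symm '' I)
    have h5 := h2 (σ.symm '' I)
    rw [σ.image_symm_image] at h4
    rw [Equiv.coe_trans, image_comp, ← h4, h5])
  rw [Equiv.Perm.sign_trans, Equiv.Perm.sign_symm] at h3
  have h4 : Equiv.Perm.sign τ * Equiv.Perm.sign σ = 1 := Units.ext h3
  have h5 : Equiv.Perm.sign τ = Equiv.Perm.sign σ := by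
    have h6 : Equiv.Perm.sign σ * Equiv.Perm.sign σ = 1 := Int.units_mul_self _
    exact mul_right_cancel (h4.trans h6.symm)
  rw [h5]

open Classical in
/-- the coefficient of the first matroid -/
noncomputable def phi0 (s : Symb 15) : ℚ :=
  if h : ∃ σ, IsoVia σ s (S 0) then (((Equiv.Perm.sign h.choose : ℤˣ) : ℤ) : ℚ) else 0

theorem phi0_eq {σ : Equiv.Perm (Fin 15)} {s : Symb 15} (h : IsoVia σ s (S 0)) :
    phi0 s = (((Equiv.Perm.sign σ : ℤˣ) : ℤ) : ℚ) := by
  have hex : ∃ σ, IsoVia σ s (S 0) := ⟨σ, h⟩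
  rw [phi0, dif_pos hex, sign_unique hex.choose_spec h]

theorem phi0_rel {σ : Equiv.Perm (Fin 15)} {s s' : Symb 15} (h : IsoVia σ s s') :
    phi0 s = (((Equiv.Perm.sign σ : ℤˣ) : ℤ) : ℚ) * phi0 s' := by
  by_cases hex : ∃ τ, IsoVia τ s' (S 0)
  · obtain ⟨τ, hτ⟩ := hex
    have h1 : IsoVia (σ.trans τ) s (S 0) := by
      intro I
      rw [h, hτ, Equiv.coe_trans, image_comp]
    rw [phi0_eq h1, phi0_eq hτ, Equiv.Perm.sign_trans]
    push_cast
    ring
  · have hex' : ¬ ∃ τ, IsoVia τ s (S 0) := by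
      rintro ⟨τ, hτ⟩
      apply hex
      refine ⟨σ.symm.trans τ, ?_⟩
      intro I
      have h1 := h (σ.symm '' I)
      have h2 := hτ (σ.symm '' I)
      rw [σ.image_symm_image] at h1
      rw [Equiv.coe_trans, image_comp, ← h1, h2]
    rw [phi0, phi0, dif_neg hex, dif_neg hex', mul_zero]

/-- the functional on chains -/
noncomputable def phi : Chain 15 →ₗ[ℚ] ℚ :=
  (relations 15).liftQ (Finsupp.linearCombination ℚ phi0) (by
    rw [relations, Submodule.span_le]
    rintro _ ⟨σ, s, s', h, rfl⟩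
    rw [SetLike.mem_coe, LinearMap.mem_ker, map_sub, Finsupp.linearCombination_single,
      Finsupp.linearCombination_single, smul_eq_mul, smul_eq_mul, one_mul, sub_eq_zero]
    exact phi0_rel h)

theorem phi_cls (s : Symb 15) : phi (cls s) = phi0 s := by
  rw [phi, cls, Submodule.mkQ_apply, Submodule.liftQ_apply, Finsupp.linearCombination_single,
    smul_eq_mul, one_mul]

theorem phi_bd (N : Symb 16) : phi (bd N) = 0 := by
  rw [bd, map_sum]
  refine Finset.sum_eq_zero fun x _ => ?_
  rw [map_smul, term]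
  split_ifs with h
  · rw [phi_cls, phi0, dif_neg, smul_zero]
    rintro ⟨σ, hσ⟩
    rw [isoVia_iff] at hσ
    refine h.1 (maximal N x σ fun I => ?_)
    rw [← indep_del]
    exact hσ I
  · rw [map_zero, smul_zero]

theorem phi_boundary (w : Chain 16) : phi (boundary 15 w) = 0 := by
  have h : phi ∘ₗ boundary 15 = 0 := by
    apply Submodule.linearMap_qext
    apply Finsupp.lhom_ext
    intro N c
    have h1 : Finsupp.single N c = c • Finsupp.single N (1 : ℚ) := by
      rw [Finsupp.smul_single, smul_eq_mul, mul_one]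
    rw [h1, map_smul, map_smul]
    have h2 : (phi ∘ₗ boundary 15 ∘ₗ (relations 16).mkQ) (Finsupp.single N 1) = 0 := by
      change phi (boundary 15 (cls N)) = 0
      rw [boundary_cls, phi_bd]
    change c • (phi ∘ₗ boundary 15 ∘ₗ (relations 16).mkQ) (Finsupp.single N 1) = _
    rw [h2, smul_zero]
    simp
  exact LinearMap.congr_fun h w

theorem phi_S0 : phi0 (S 0) = 1 := by
  have h : IsoVia (Equiv.refl _) (S 0) (S 0) := by
    intro I
    simp
  rw [phi0_eq h]
  simp

theorem phi_S (k : Fin 5) (hk : k ≠ 0) : phi0 (S k) = 0 := by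
  rw [phi0, dif_neg]
  rintro ⟨σ, hσ⟩
  rw [isoVia_iff] at hσ
  obtain ⟨a, ha⟩ := fact_degk k hk
  apply ha
  rw [← fact_deg0 (σ a)]
  have h1 : ∀ b, adjc k a b = adjc 0 (σ a) (σ b) :=
    adjc_congr σ (fun I => by rw [← S_indep]; exact hσ I) a
  have h2 : ∀ (f : Fin 15 → Bool), ((List.finRange 15).filter f).length =
      (Finset.univ.filter fun b => f b = true).card := by
    intro f
    simp [Finset.card, Finset.filter, Fin.univ_def]
  rw [h2, h2]
  apply Finset.card_bij (fun b _ => σ b)
  · intro b hb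
    rw [Finset.mem_filter] at hb ⊢
    exact ⟨Finset.mem_univ _, by rw [← h1]; exact hb.2⟩
  · intro b _ c _ hbc
    exact σ.injective hbc
  · intro c hc
    obtain ⟨b, rfl⟩ := σ.surjective c
    rw [Finset.mem_filter] at hc
    exact ⟨b, Finset.mem_filter.2 ⟨Finset.mem_univ _, by rw [h1]; exact hc.2⟩, rfl⟩

/-! ### The cycle -/

/-- the linear map with given images of the unit vectors -/
def gl (G : List ℕ) : (Fin 6 → ZMod 2) →ₗ[ZMod 2] (Fin 6 → ZMod 2) :=
  Fintype.linearCombination (ZMod 2) fun r : Fin 6 => vec (G.getD r 0)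

theorem gl_vec (G : List ℕ) (m : ℕ) : gl G (vec m) = vec (xorsum m G) := by
  have h : ∀ r : Fin 6, vec m r • vec (G.getD r 0) =
      vec (if m.testBit r then G.getD r 0 else 0) := by
    intro r
    rw [vec]
    split_ifs
    · rw [one_smul]
    · rw [zero_smul, vec_zero]
  rw [gl, Fintype.linearCombination_apply, Fin.sum_univ_six, h, h, h, h, h, h, xorsum, vec_xor,
    vec_xor, vec_xor, vec_xor, vec_xor]
  rfl

theorem fact_unit_vec : ∀ r : Fin 6, vec (2 ^ (r : ℕ)) = Pi.single r 1 := by
  decide +kernel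

theorem gl_single (G : List ℕ) (r : Fin 6) : gl G (Pi.single r 1) = vec (G.getD r 0) := by
  rw [gl, Fintype.linearCombination_apply, Finset.sum_eq_single r]
  · rw [Pi.single_eq_same, one_smul]
  · intro b _ hb
    rw [Pi.single_eq_of_ne hb, zero_smul]
  · intro h
    exact absurd (Finset.mem_univ _) h

theorem gl_injective (k : Fin 5) (x : Fin 15) :
    Function.Injective (gl (gT.getD (idx k x) [])) := by
  have h : gl (gInvT.getD (idx k x) []) ∘ₗ gl (gT.getD (idx k x) []) = LinearMap.id := by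
    apply LinearMap.pi_ext
    intro r c
    have h1 : (Pi.single r c : Fin 6 → ZMod 2) = c • Pi.single r 1 := by
      rw [← Pi.single_smul, smul_eq_mul, mul_one]
    rw [h1, map_smul, map_smul, LinearMap.comp_apply, gl_single, gl_vec, fact_inv, fact_unit_vec,
      LinearMap.id_apply]
  intro a b hab
  have h1 := congrArg (gl (gInvT.getD (idx k x) [])) hab
  have h2 := LinearMap.congr_fun h a
  have h3 := LinearMap.congr_fun h b
  rw [LinearMap.comp_apply, LinearMap.id_apply] at h2 h3
  rw [← h2, ← h3, h1]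

/-- the permutation of a certificate -/
noncomputable def piP (k : Fin 5) (x : Fin 15) : Equiv.Perm (Fin 14) :=
  Equiv.ofBijective (piF k x) (Finite.injective_iff_bijective.1 (by
    intro i j hij
    apply fact_pi_inj k x i j
    have h := congrArg Fin.val hij
    have hi : (piF k x i : ℕ) = piN k x i := Nat.mod_eq_of_lt (fact_pi_lt k x i)
    have hj : (piF k x j : ℕ) = piN k x j := Nat.mod_eq_of_lt (fact_pi_lt k x j)
    rw [hi, hj] at h
    exact h))

theorem piP_apply (k : Fin 5) (x : Fin 15) (i : Fin 14) : piP k x i = piF k x i := rfl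

theorem sign_piP (k : Fin 5) (x : Fin 15) :
    ((Equiv.Perm.sign (piP k x) : ℤˣ) : ℤ) = signOf 14 (piN k x) := by
  apply sign_eq
  intro i
  rw [piP_apply]
  exact (Nat.mod_eq_of_lt (fact_pi_lt k x i)).symm

theorem term_cert (k : Fin 5) (x : Fin 15) :
    term (n := 14) (S k) x = ((signOf 14 (piN k x) : ℤ) : ℚ) •
      term (n := 14) (S (rep k x).1) (rep k x).2 := by
  rw [← sign_piP]
  apply term_eq
  · exact iff_of_false (S_coloop _ _) (S_coloop _ _)
  · intro I
    have h1 : ∀ (k : Fin 5) (x : Fin 15) (J : Set (Fin 14)),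
        (S k).M.Indep (((S k).l ∘ x.succAbove) '' J) ↔
          LinearIndepOn (ZMod 2) (vcol k ∘ x.succAbove) J := by
      intro k x J
      rw [image_comp, S_indep, indepOn_image _ Fin.succAbove_right_injective]
    rw [h1, h1, indepOn_image _ (piP k x).injective]
    have h2 : (vcol (rep k x).1 ∘ (rep k x).2.succAbove) ∘ (piP k x) =
        gl (gT.getD (idx k x) []) ∘ (vcol k ∘ x.succAbove) := by
      funext i
      simp only [Function.comp_apply, vcol]
      rw [gl_vec, fact_cert, piP_apply]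
    rw [h2, indepOn_map _ (gl_injective k x)]

/-- the signed term -/
noncomputable def sterm (k : Fin 5) (x : Fin 15) : Chain 14 :=
  (-1 : ℚ) ^ (x : ℕ) • term (n := 14) (S k) x

theorem sterm_rel (k : Fin 5) (x : Fin 15) :
    sterm k x = (sg k x : ℚ) • sterm (rep k x).1 (rep k x).2 := by
  rw [sterm, sterm]
  rcases fact_sign k x with h | ⟨h1, h2, h3⟩
  · rw [h, smul_smul, term_cert k x, smul_smul]
    congr 1
    push_cast
    have h4 : ((-1 : ℚ) ^ ((rep k x).2 : ℕ)) * (-1) ^ ((rep k x).2 : ℕ) = 1 := by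
      rw [← mul_pow]
      norm_num
    linear_combination (-((-1 : ℚ) ^ (x : ℕ)) * (signOf 14 (piN k x) : ℚ)) * h4
  · have h4 := term_cert k x
    rw [h2, h3] at h4
    have h5 : term (n := 14) (S k) x = 0 := by
      have h6 : (2 : ℚ) • term (n := 14) (S k) x = 0 := by
        rw [two_smul]
        nth_rewrite 1 [h4]
        push_cast
        rw [neg_smul, one_smul, neg_add_cancel]
      exact (smul_eq_zero.1 h6).resolve_left two_ne_zero
    rw [h5, h1, smul_zero, Int.cast_zero, zero_smul]

/-- the cycle -/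
noncomputable def z : Chain 15 := ∑ k, (coef k : ℚ) • cls (S k)

theorem boundary_z : boundary 14 z = 0 := by
  rw [z, map_sum]
  have h1 : ∀ k : Fin 5, boundary 14 ((coef k : ℚ) • cls (S k)) =
      ∑ x : Fin 15, ((coef k * sg k x : ℤ) : ℚ) • sterm (rep k x).1 (rep k x).2 := by
    intro k
    rw [map_smul, boundary_cls, bd, Finset.smul_sum]
    refine Finset.sum_congr rfl fun x _ => ?_
    have h2 := sterm_rel k x
    rw [sterm] at h2
    rw [h2, smul_smul, Int.cast_mul]
  rw [Finset.sum_congr rfl fun k _ => h1 k]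
  have h3 : ∀ (k : Fin 5) (x : Fin 15), ((coef k * sg k x : ℤ) : ℚ) •
      sterm (rep k x).1 (rep k x).2 = ∑ q : Fin 5 × Fin 15,
        ((if rep k x = q then coef k * sg k x else 0 : ℤ) : ℚ) • sterm q.1 q.2 := by
    intro k x
    rw [Finset.sum_eq_single (rep k x)]
    · rw [if_pos rfl]
    · intro q _ hq
      rw [if_neg fun h => hq h.symm, Int.cast_zero, zero_smul]
    · intro h
      exact absurd (Finset.mem_univ _) h
  rw [Finset.sum_congr rfl fun k _ => Finset.sum_congr rfl fun x _ => h3 k x]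
  rw [Finset.sum_congr rfl fun k _ => Finset.sum_comm, Finset.sum_comm]
  refine Finset.sum_eq_zero fun q _ => ?_
  have h4 := fact_total q
  rw [← Fin.sum_univ_def] at h4
  simp only [← Fin.sum_univ_def] at h4
  have h5 : ∑ k : Fin 5, ∑ x : Fin 15,
      ((if rep k x = q then coef k * sg k x else 0 : ℤ) : ℚ) • sterm q.1 q.2 =
      ((∑ k : Fin 5, ∑ x : Fin 15, (if rep k x = q then coef k * sg k x else 0) : ℤ) : ℚ) •
        sterm q.1 q.2 := by
    rw [Int.cast_sum, Finset.sum_smul]
    refine Finset.sum_congr rfl fun k _ => ?_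
    rw [Int.cast_sum, Finset.sum_smul]
  rw [h5, h4, Int.cast_zero, zero_smul]

theorem phi_z : phi z ≠ 0 := by
  rw [z, map_sum, Finset.sum_eq_single 0]
  · rw [map_smul, phi_cls, phi_S0, smul_eq_mul, mul_one]
    exact_mod_cast fact_coef
  · intro k _ hk
    rw [map_smul, phi_cls, phi_S k hk, smul_zero]
  · intro h
    exact absurd (Finset.mem_univ _) h

/-- **The homology of the complex of connected simple regular matroids is not spanned by the classes
of `U_{1,1}` and of the wheels of odd genus**: there is a cycle with 15 elements that is not a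
combination of these classes and a boundary. -/
theorem result : ∃ z : Chain 15, boundary 14 z = 0 ∧
    z ∉ Submodule.span ℚ (special 15) ⊔ LinearMap.range (boundary 15) := by
  refine ⟨z, boundary_z, fun h => ?_⟩
  rw [special_odd (by decide) (by decide), span_empty, bot_sup_eq] at h
  obtain ⟨w, hw⟩ := h
  apply phi_z
  rw [← hw, phi_boundary]

end Pool.Agent.Results.MP_4eafcb_co.NonWheelClass
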